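import Pool.Agent.R423.DMV.Main

/-!
# MP_7c5a52_nt, Q1: disproof

For `r = 4`, `q = 3` and the prime `n = T^2 + 1`, half of the divisor of the product of the nonzero
elements of the level structure `C ≅ A/n` is an integral, `G_F`-invariant divisor on `X_0^4(n)`
whose class has order dividing `2` and is not cuspidal.  So the `F`-rational torsion of the class
group is not cuspidal and Q1 is false.
-/

open Pool.Agent.R423.DMV

theorem Pool.Agent.Results.MP_7c5a52_nt.TorsionNotCuspidal.result :
    ¬ Q1 ∧ ∀ S : Model (ZMod 3) 3,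
      (∃ u : S.L, IsGen (Polynomial.X ^ 2 + 1 : Polynomial (ZMod 3)) u) ∧
      ∀ u : S.L, IsGen (Polynomial.X ^ 2 + 1 : Polynomial (ZMod 3)) u →
        ∃ x : Cl u, IsRational u x ∧ KilledBy 2 x ∧ ¬ InCusp x :=
  ⟨not_Q1, fun S => ⟨exists_gen S, main S⟩⟩
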